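import Mathlib
import Pool.Agent.Q113.MS.All

/-!
# The Manickam–Miklós–Singhi conjecture for `n ≥ 10 k`
-/

set_option autoImplicit false

namespace Pool.Agent.Results.MP_6af1d5_co.LinearRange

open Finset

/-- For all `k ≥ 1` and `n ≥ 10 k`:
(1) any `n` real numbers `x_1, …, x_n` (repetitions allowed) with sum `≥ 0` have at least `C(n-1,k-1)`
`k`-element index sets with nonnegative sum;
(2) every set of `n` distinct reals with sum zero has at least `C(n-1,k-1)` subsets of size `k` with
nonnegative sum (Q1). -/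
theorem result (n k : ℕ) (hk : 1 ≤ k) (hn : 10 * k ≤ n) :
    (∀ x : Fin n → ℝ, 0 ≤ ∑ i, x i → (n - 1).choose (k - 1) ≤
      (((univ : Finset (Fin n)).powersetCard k).filter (fun S => 0 ≤ ∑ i ∈ S, x i)).card) ∧
    (∀ A : Finset ℝ, A.card = n → ∑ a ∈ A, a = 0 → (n - 1).choose (k - 1) ≤
      ((A.powersetCard k).filter (fun B => 0 ≤ ∑ b ∈ B, b)).card) := by
  classical
  constructor
  · intro x hx
    have h := Pool.Agent.Q113.MS.mms10 (Fin n) univ k x hk (by rw [card_univ, Fintype.card_fin]; exact hn) hx
    rw [card_univ, Fintype.card_fin] at h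
    convert h using 2
    unfold Pool.Agent.Q113.MS.NN
    congr 1
  · intro A hA hs
    have h := Pool.Agent.Q113.MS.mms10 ℝ A k (fun a => a) hk (by rw [hA]; exact hn) hs.symm.le
    rw [hA] at h
    convert h using 2
    unfold Pool.Agent.Q113.MS.NN
    congr 1

end Pool.Agent.Results.MP_6af1d5_co.LinearRange
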